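import Pool.Agent.TH782.ProjAlg

set_option autoImplicit false

/-!
# The number of isomorphism classes of projective algebras with `k` generators

For every `k ≥ 1` the projective algebras generated by `k` plane sets fall into exactly `2 ^ ℵ₀`
isomorphism classes.
-/

namespace Pool.Agent.Results.MP_71be7b_lc.NumberOfIsoClasses

open Cardinal Pool.Agent.TH782.ProjAlg

/-- The projective algebras of plane sets. -/
def ProjAlgebra : Type := {F : Set (Set (ℝ × ℝ)) // IsProjAlg F}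

/-- Two projective algebras are isomorphic if there is a bijection that commutes with the
operations. -/
def Isomorphic (F G : ProjAlgebra) : Prop :=
  ∃ φ : F.1 ≃ G.1, IsHom fun A : F.1 => (φ A : Set (ℝ × ℝ))

theorem isomorphic_refl (F : ProjAlgebra) : Isomorphic F F := by
  refine ⟨Equiv.refl _, ⟨?_, ?_, ?_, ?_, ?_⟩⟩
  · intro A B h; exact h
  · intro A B C h; exact h
  · intro A B h; exact h
  · intro A B h; exact h
  · intro A B C _ _ h; exact h

theorem isomorphic_trans {F G H : ProjAlgebra} (h : Isomorphic F G) (h' : Isomorphic G H) :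
    Isomorphic F H := by
  obtain ⟨φ, hφ⟩ := h
  obtain ⟨ψ, hψ⟩ := h'
  refine ⟨φ.trans ψ, ⟨?_, ?_, ?_, ?_, ?_⟩⟩
  · intro A B h; exact hψ.compl _ _ (hφ.compl A B h)
  · intro A B C h; exact hψ.union _ _ _ (hφ.union A B C h)
  · intro A B h; exact hψ.pi1 _ _ (hφ.pi1 A B h)
  · intro A B h; exact hψ.pi2 _ _ (hφ.pi2 A B h)
  · intro A B C hA hB h
    refine hψ.tens _ _ _ ?_ ?_ (hφ.tens A B C hA hB h)
    · rw [← pi1_eq_iff] at hA ⊢
      exact (hφ.pi1 A A hA.symm).symm
    · rw [← pi2_eq_iff] at hB ⊢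
      exact (hφ.pi2 B B hB.symm).symm

theorem isomorphic_symm {F G : ProjAlgebra} (h : Isomorphic F G) : Isomorphic G F := by
  obtain ⟨φ, hφ⟩ := h
  have key : ∀ (A : G.1) (S : Set (ℝ × ℝ)) (hS : S ∈ F.1), (φ ⟨S, hS⟩ : Set (ℝ × ℝ)) = A →
      ((φ.symm A : F.1) : Set (ℝ × ℝ)) = S := by
    intro A S hS h
    have : φ ⟨S, hS⟩ = A := Subtype.ext h
    rw [← this, Equiv.symm_apply_apply]
  have k1 : ∀ A : G.1, (A : Set (ℝ × ℝ)) ⊆ axX → (φ.symm A : Set (ℝ × ℝ)) ⊆ axX := by
    intro A hA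
    rw [← pi1_eq_iff] at hA ⊢
    symm
    apply key A _ (F.2.pi1 _ (φ.symm A).2)
    rw [hφ.pi1 (φ.symm A) ⟨_, F.2.pi1 _ (φ.symm A).2⟩ rfl, Equiv.apply_symm_apply, hA]
  have k2 : ∀ A : G.1, (A : Set (ℝ × ℝ)) ⊆ axY → (φ.symm A : Set (ℝ × ℝ)) ⊆ axY := by
    intro A hA
    rw [← pi2_eq_iff] at hA ⊢
    symm
    apply key A _ (F.2.pi2 _ (φ.symm A).2)
    rw [hφ.pi2 (φ.symm A) ⟨_, F.2.pi2 _ (φ.symm A).2⟩ rfl, Equiv.apply_symm_apply, hA]
  refine ⟨φ.symm, ⟨?_, ?_, ?_, ?_, ?_⟩⟩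
  · intro A B h
    apply key B _ (F.2.compl _ (φ.symm A).2)
    rw [hφ.compl (φ.symm A) ⟨_, F.2.compl _ (φ.symm A).2⟩ rfl, Equiv.apply_symm_apply, h]
  · intro A B C h
    apply key C _ (F.2.union _ (φ.symm A).2 _ (φ.symm B).2)
    rw [hφ.union (φ.symm A) (φ.symm B) ⟨_, F.2.union _ (φ.symm A).2 _ (φ.symm B).2⟩ rfl,
      Equiv.apply_symm_apply, Equiv.apply_symm_apply, h]
  · intro A B h
    apply key B _ (F.2.pi1 _ (φ.symm A).2)
    rw [hφ.pi1 (φ.symm A) ⟨_, F.2.pi1 _ (φ.symm A).2⟩ rfl, Equiv.apply_symm_apply, h]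
  · intro A B h
    apply key B _ (F.2.pi2 _ (φ.symm A).2)
    rw [hφ.pi2 (φ.symm A) ⟨_, F.2.pi2 _ (φ.symm A).2⟩ rfl, Equiv.apply_symm_apply, h]
  · intro A B C hA hB h
    apply key C _ (F.2.tens _ (φ.symm A).2 _ (φ.symm B).2 (k1 A hA) (k2 B hB))
    rw [hφ.tens (φ.symm A) (φ.symm B)
      ⟨_, F.2.tens _ (φ.symm A).2 _ (φ.symm B).2 (k1 A hA) (k2 B hB)⟩ (k1 A hA) (k2 B hB) rfl,
      Equiv.apply_symm_apply, Equiv.apply_symm_apply, h]

/-- Isomorphism of projective algebras is an equivalence relation. -/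
instance isoSetoid : Setoid ProjAlgebra :=
  ⟨Isomorphic, isomorphic_refl, isomorphic_symm, isomorphic_trans⟩

/-- The projective algebra generated by the plane sets `S 0, ..., S (k - 1)`: the smallest
projective algebra that contains all of them. -/
def gen {k : ℕ} (S : Fin k → Set (ℝ × ℝ)) : ProjAlgebra :=
  ⟨⋂₀ {F | IsProjAlg F ∧ ∀ i, S i ∈ F}, by
    constructor
    · intro A hA F hF
      exact hF.1.compl _ (hA F hF)
    · intro A hA B hB F hF
      exact hF.1.union _ (hA F hF) _ (hB F hF)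
    · intro A hA F hF
      exact hF.1.pi1 _ (hA F hF)
    · intro A hA F hF
      exact hF.1.pi2 _ (hA F hF)
    · intro A hA B hB h1 h2 F hF
      exact hF.1.tens _ (hA F hF) _ (hB F hF) h1 h2⟩

theorem mem_gen {k : ℕ} (S : Fin k → Set (ℝ × ℝ)) (i : Fin k) : S i ∈ (gen S).1 :=
  fun _ hF => hF.2 i

/-! ### Terms and the upper bound -/

/-- Terms in `k` variables. -/
inductive Term (k : ℕ) : Type
  | var (i : Fin k) : Term k
  | compl (t : Term k) : Term k
  | union (s t : Term k) : Term k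
  | pi1 (t : Term k) : Term k
  | pi2 (t : Term k) : Term k
  | tens (s t : Term k) : Term k

/-- A code of a term as a list of natural numbers. -/
def Term.toList {k : ℕ} : Term k → List ℕ
  | .var i => [0, i]
  | .compl t => 1 :: t.toList
  | .union s t => 2 :: (s.toList ++ t.toList)
  | .pi1 t => 3 :: t.toList
  | .pi2 t => 4 :: t.toList
  | .tens s t => 5 :: (s.toList ++ t.toList)

theorem Term.toList_inj {k : ℕ} (s : Term k) : ∀ (t : Term k) (l l' : List ℕ),
    s.toList ++ l = t.toList ++ l' → s = t ∧ l = l' := by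
  induction s with
  | var i =>
    intro t l l' h
    cases t <;> simp [Term.toList] at h
    exact ⟨by rw [Fin.ext h.1], h.2⟩
  | compl s ih =>
    intro t l l' h
    cases t <;> simp [Term.toList] at h
    obtain ⟨rfl, h2⟩ := ih _ _ _ h
    exact ⟨rfl, h2⟩
  | pi1 s ih =>
    intro t l l' h
    cases t <;> simp [Term.toList] at h
    obtain ⟨rfl, h2⟩ := ih _ _ _ h
    exact ⟨rfl, h2⟩
  | pi2 s ih =>
    intro t l l' h
    cases t <;> simp [Term.toList] at h
    obtain ⟨rfl, h2⟩ := ih _ _ _ h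
    exact ⟨rfl, h2⟩
  | union s s' ih ih' =>
    intro t l l' h
    cases t <;> simp [Term.toList] at h
    obtain ⟨rfl, h2⟩ := ih _ _ _ h
    obtain ⟨rfl, h3⟩ := ih' _ _ _ h2
    exact ⟨rfl, h3⟩
  | tens s s' ih ih' =>
    intro t l l' h
    cases t <;> simp [Term.toList] at h
    obtain ⟨rfl, h2⟩ := ih _ _ _ h
    obtain ⟨rfl, h3⟩ := ih' _ _ _ h2
    exact ⟨rfl, h3⟩

instance (k : ℕ) : Countable (Term k) := by
  apply Function.Injective.countable (f := Term.toList)
  intro s t h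
  exact (Term.toList_inj s t [] [] (by rw [h])).1

/-- The value of a term. -/
def ev {k : ℕ} (S : Fin k → Set (ℝ × ℝ)) : Term k → Set (ℝ × ℝ)
  | .var i => S i
  | .compl t => (ev S t)ᶜ
  | .union s t => ev S s ∪ ev S t
  | .pi1 t => pi1 (ev S t)
  | .pi2 t => pi2 (ev S t)
  | .tens s t => tens (ev S s) (ev S t)

theorem gen_eq {k : ℕ} (S : Fin k → Set (ℝ × ℝ)) : (gen S).1 = Set.range (ev S) := by
  apply Set.Subset.antisymm
  · apply Set.sInter_subset_of_mem
    refine ⟨⟨?_, ?_, ?_, ?_, ?_⟩, fun i => ⟨.var i, rfl⟩⟩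
    · rintro _ ⟨s, rfl⟩
      exact ⟨.compl s, rfl⟩
    · rintro _ ⟨s, rfl⟩ _ ⟨t, rfl⟩
      exact ⟨.union s t, rfl⟩
    · rintro _ ⟨s, rfl⟩
      exact ⟨.pi1 s, rfl⟩
    · rintro _ ⟨s, rfl⟩
      exact ⟨.pi2 s, rfl⟩
    · rintro _ ⟨s, rfl⟩ _ ⟨t, rfl⟩ _ _
      exact ⟨.tens s t, rfl⟩
  · rintro _ ⟨t, rfl⟩ F hF
    induction t with
    | var i => exact hF.2 i
    | compl t ih => exact hF.1.compl _ ih
    | union s t ih ih' => exact hF.1.union _ ih _ ih'
    | pi1 t ih => exact hF.1.pi1 _ ih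
    | pi2 t ih => exact hF.1.pi2 _ ih
    | tens s t ih ih' => exact hF.1.tens' ih ih'

theorem countable_gen {k : ℕ} (S : Fin k → Set (ℝ × ℝ)) : (gen S).1.Countable := by
  rw [gen_eq]
  exact Set.countable_range _

/-- Algebras whose generators satisfy the same equations are isomorphic. -/
theorem iso_of_ker {k : ℕ} {S S' : Fin k → Set (ℝ × ℝ)}
    (h : ∀ s t : Term k, ev S s = ev S t ↔ ev S' s = ev S' t) : Isomorphic (gen S) (gen S') := by
  have hm : ∀ A : (gen S).1, ∃ t, ev S t = A := fun A => by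
    have h1 : A.1 ∈ Set.range (ev S) := gen_eq S ▸ A.2
    exact h1
  choose c hc using hm
  have hm' : ∀ A : (gen S').1, ∃ t, ev S' t = A := fun A => by
    have h1 : A.1 ∈ Set.range (ev S') := gen_eq S' ▸ A.2
    exact h1
  choose c' hc' using hm'
  let φ : (gen S).1 → (gen S').1 := fun A => ⟨ev S' (c A), by rw [gen_eq]; exact ⟨_, rfl⟩⟩
  have hφ : ∀ (A : (gen S).1) (t : Term k), (A : Set (ℝ × ℝ)) = ev S t →
      (φ A : Set (ℝ × ℝ)) = ev S' t := by
    intro A t hA
    exact (h _ _).1 ((hc A).trans hA)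
  have hinj : Function.Injective φ := by
    intro A B hAB
    have h1 : ev S' (c A) = ev S' (c B) := congrArg Subtype.val hAB
    rw [← h, hc, hc] at h1
    exact Subtype.ext h1
  have hsur : Function.Surjective φ := by
    intro B
    refine ⟨⟨ev S (c' B), by rw [gen_eq]; exact ⟨_, rfl⟩⟩, Subtype.ext ?_⟩
    rw [hφ _ (c' B) rfl, hc']
  refine ⟨Equiv.ofBijective φ ⟨hinj, hsur⟩, ?_⟩
  have hφ' : ∀ (A : (gen S).1) (t : Term k), (A : Set (ℝ × ℝ)) = ev S t →
      ((Equiv.ofBijective φ ⟨hinj, hsur⟩) A : Set (ℝ × ℝ)) = ev S' t := hφ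
  constructor
  · intro A B hAB
    rw [hφ' A (c A) (hc A).symm, hφ' B (.compl (c A)) (by rw [hAB, ← hc A]; rfl)]
    rfl
  · intro A B C hAB
    rw [hφ' A (c A) (hc A).symm, hφ' B (c B) (hc B).symm,
      hφ' C (.union (c A) (c B)) (by rw [hAB, ← hc A, ← hc B]; rfl)]
    rfl
  · intro A B hAB
    rw [hφ' A (c A) (hc A).symm, hφ' B (.pi1 (c A)) (by rw [hAB, ← hc A]; rfl)]
    rfl
  · intro A B hAB
    rw [hφ' A (c A) (hc A).symm, hφ' B (.pi2 (c A)) (by rw [hAB, ← hc A]; rfl)]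
    rfl
  · intro A B C _ _ hAB
    rw [hφ' A (c A) (hc A).symm, hφ' B (c B) (hc B).symm,
      hφ' C (.tens (c A) (c B)) (by rw [hAB, ← hc A, ← hc B]; rfl)]
    rfl

/-- The isomorphism classes of the projective algebras generated by `k` plane sets. -/
def Classes (k : ℕ) : Set (Quotient isoSetoid) :=
  {c | ∃ S : Fin k → Set (ℝ × ℝ), c = ⟦gen S⟧}

/-- The isomorphism classes of the projective algebras generated by `k` distinct plane sets. -/
def ClassesDistinct (k : ℕ) : Set (Quotient isoSetoid) :=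
  {c | ∃ S : Fin k → Set (ℝ × ℝ), Function.Injective S ∧ c = ⟦gen S⟧}

theorem upper (k : ℕ) : #(Classes k) ≤ 𝔠 := by
  have h : ∀ c : Classes k, ∃ S : Fin k → Set (ℝ × ℝ), c.1 = ⟦gen S⟧ := fun c => c.2
  choose S hS using h
  let f : Classes k → Set (Term k × Term k) := fun c => {p | ev (S c) p.1 = ev (S c) p.2}
  have hf : Function.Injective f := by
    intro c d hcd
    apply Subtype.ext
    rw [hS c, hS d]
    apply Quotient.sound
    apply iso_of_ker
    intro s t
    have : (s, t) ∈ f c ↔ (s, t) ∈ f d := by rw [hcd]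
    exact this
  refine (mk_le_of_injective hf).trans ?_
  rw [mk_set, ← two_power_aleph0]
  exact power_le_power_left two_ne_zero mk_le_aleph0

theorem lower {k : ℕ} (hk : 0 < k) : 𝔠 ≤ #(ClassesDistinct k) := by
  classical
  -- the generators
  let S : Set ℕ → Fin k → Set (ℝ × ℝ) := fun Z i =>
    if i.1 = 0 then SZ Z else {((i.1 : ℝ), -1)}
  have hSZ : ∀ Z, S Z ⟨0, hk⟩ = SZ Z := fun Z => by simp [S]
  have hne : ∀ (Z : Set ℕ) (i : ℕ), SZ Z ≠ {((i : ℝ), -1)} := by
    intro Z i h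
    have h1 : ((1 : ℝ), (0 : ℝ)) ∈ SZ Z := Or.inr ⟨0, by simp, Or.inl (by simp)⟩
    rw [h] at h1
    have h2 : (0 : ℝ) = -1 := congrArg Prod.snd h1
    norm_num at h2
  have hinj : ∀ Z, Function.Injective (S Z) := by
    intro Z i j hij
    by_cases hi : i.1 = 0 <;> by_cases hj : j.1 = 0
    · exact Fin.ext (hi.trans hj.symm)
    · simp only [S, hi, hj, if_true, if_false] at hij
      exact absurd hij (hne Z _)
    · simp only [S, hi, hj, if_true, if_false] at hij
      exact absurd hij.symm (hne Z _)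
    · simp only [S, hi, hj, if_false] at hij
      have h1 := Set.singleton_injective hij
      have h2 : (i.1 : ℝ) = j.1 := congrArg Prod.fst h1
      exact Fin.ext (by exact_mod_cast h2)
  let f : Set ℕ → ClassesDistinct k := fun Z => ⟨⟦gen (S Z)⟧, S Z, hinj Z, rfl⟩
  have hfib : ∀ c : ClassesDistinct k, #(f ⁻¹' {c}) ≤ ℵ₀ := by
    intro c
    by_cases hc : (f ⁻¹' {c}).Nonempty
    · obtain ⟨Z₀, hZ₀⟩ := hc
      have hsub : f ⁻¹' {c} ⊆ code '' (gen (S Z₀)).1 := by
        intro Z hZ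
        have h1 : f Z = f Z₀ := by rw [hZ, hZ₀]
        have h2 : Isomorphic (gen (S Z)) (gen (S Z₀)) :=
          Quotient.exact (congrArg Subtype.val h1)
        obtain ⟨φ, hφ⟩ := h2
        have hmem : SZ Z ∈ (gen (S Z)).1 := by
          rw [← hSZ Z]
          exact mem_gen _ _
        have h3 := code_eq (gen (S Z)).2 hφ
          (fun A B hAB => φ.injective (Subtype.ext hAB)) ⟨SZ Z, hmem⟩
        exact ⟨_, (φ ⟨SZ Z, hmem⟩).2, h3.trans (code_SZ Z)⟩
      exact (((countable_gen (S Z₀)).image code).mono hsub).le_aleph0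
    · rw [Set.not_nonempty_iff_eq_empty] at hc
      rw [hc]
      simp
  have h1 := mk_le_mk_mul_of_mk_preimage_le f hfib
  rw [mk_set, mk_nat, two_power_aleph0] at h1
  by_contra hlt
  rw [not_le] at hlt
  exact absurd h1 (not_le.2 (mul_lt_of_lt aleph0_le_continuum hlt aleph0_lt_continuum))

/-- For every positive integer `k`, the number of isomorphism classes of projective algebras
generated by `k` subsets of the plane is `2 ^ ℵ₀`, whether or not the `k` subsets are required to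
be distinct. -/
theorem result (k : ℕ) (hk : 0 < k) : #(Classes k) = 𝔠 ∧ #(ClassesDistinct k) = 𝔠 := by
  have h : ClassesDistinct k ⊆ Classes k := fun _ ⟨S, _, h⟩ => ⟨S, h⟩
  have h1 : #(ClassesDistinct k) ≤ #(Classes k) := mk_le_mk_of_subset h
  exact ⟨(upper k).antisymm ((lower hk).trans h1), (h1.trans (upper k)).antisymm (lower hk)⟩

end Pool.Agent.Results.MP_71be7b_lc.NumberOfIsoClasses
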